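import Pool.Agent.PVD.StmtsL

/-! Squad PVD, row L_EXR: the expansion of `LR`. -/

set_option autoImplicit false

namespace Pool.Agent.PVD.L.H88

open Pool.Agent.PVD.L

/-- EXR -/
theorem exr (rem : RemStmt) (exl : ExlStmt) (exi : ExiStmt) (exk : ExkStmt) (wbd : WbdStmt) :
    ExrStmt := by
  intro e he0 he1
  obtain ⟨C1, h11, H1⟩ := rem e he0 he1
  obtain ⟨C2, h21, H2⟩ := exl e he0 he1
  obtain ⟨C3, h31, H3⟩ := exi e he0 he1
  obtain ⟨C4, h41, H4⟩ := exk e he0 he1
  have hB : 0 ≤ 2 * C1 * ((C1 + 1 + 2 * C2) * (3 / 2) + C3) := by positivity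
  refine ⟨C1 + C2 + C3 + 2 * C4 + 2 * C1 * ((C1 + 1 + 2 * C2) * (3 / 2) + C3), by linarith, ?_⟩
  intro q sg y u1 u2 v hP hT
  set T := TT q with hTd
  have hq0 := hP.q0
  have hqT : q ≤ T := hP.qT
  have hT0 : 0 < T := lt_of_lt_of_le hq0 hqT
  have hCT : ∀ c : ℝ, c ≤ C1 + C2 + C3 + 2 * C4 + 2 * C1 * ((C1 + 1 + 2 * C2) * (3 / 2) + C3) →
      c * T ≤ 1 / 2 := fun c hc => le_trans (mul_le_mul_of_nonneg_right hc hT0.le) hT
  have hT1 : T ≤ 1 / 2 := by
    have := hCT 1 (by linarith)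
    linarith
  obtain ⟨hs0, -, hs1, -⟩ := H1 q sg y u1 u2 v hP (hCT C1 (by linarith))
  obtain ⟨-, hl⟩ := H2 q sg y u1 u2 v hP (hCT C2 (by linarith))
  obtain ⟨hp3, -⟩ := H3 q sg y u1 u2 v hP (hCT C3 (by linarith))
  obtain ⟨hA, -⟩ := H4 q y hq0 hqT hP.y0 hP.y1
  obtain ⟨wh, wh1, wc0, wc1, -, -, -, -, -, hw⟩ := wbd e y he0 he1 hP.y0 hP.y1
  have hh0 : 0 ≤ hh e y := le_trans (by positivity) wh
  have hy0 : 0 < y := lt_of_lt_of_le (by norm_num) hP.y0
  have hey0 : 0 ≤ e / y := by positivity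
  have hey1 : e / y ≤ 1 := by
    rw [div_le_one hy0]
    linarith [hP.y0]
  -- s (h + c) = sg T e / y
  have hsw : ss e q sg y * (hh e y + cc e y) = sg * T * (e / y) := by
    unfold ss
    rw [← hTd, ← hw]
    ring
  set s := ss e q sg y with hsd
  set h := hh e y with hhd
  set c := cc e y with hcd
  set E := e / y with hEd
  set P3 := Hm e (nuL e q sg y u1 u2) 3 with hP3
  set A := q * Hm e (muK e q y) 0 with hAd
  set l := lam e q sg y u1 u2 v with hld
  have hQ : q + T ^ 2 ≤ 2 * T := by nlinarith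
  have hQ0 : 0 ≤ q + T ^ 2 := by positivity
  -- the identity
  have hid : LR e q sg y u1 u2 v - E * T * (sg - 1) =
      -2 * (A - T * E) - (l - 1 - (s * (c - h) - T * E)) +
        2 * s * ((l - 1) * P3 + (P3 - c)) := by
    have h1 : LR e q sg y u1 u2 v = (1 - 2 * A) - l * (1 - 2 * s * P3) := by
      unfold LR
      rw [← hld, ← hsd, ← hP3, hAd]
      ring
    rw [h1]
    have h2 : E * T * (sg - 1) = s * (h + c) - T * E := by
      rw [hsw]
      ring
    rw [h2]
    ring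
  rw [hid]
  -- bounds
  have hx : |s * (c - h) - T * E| ≤ (C1 + 1) * T := by
    have a1 : |s * (c - h)| ≤ C1 * T := by
      rw [abs_mul, abs_of_pos hs0]
      have a2 : |c - h| ≤ 1 := by
        rw [abs_le]
        constructor <;> linarith
      calc s * |c - h| ≤ s * 1 := mul_le_mul_of_nonneg_left a2 hs0.le
        _ = s := mul_one s
        _ ≤ C1 * T := hs1
    have a3 : |T * E| ≤ T := by
      rw [abs_of_nonneg (by positivity)]
      calc T * E ≤ T * 1 := mul_le_mul_of_nonneg_left hey1 hT0.le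
        _ = T := mul_one T
    calc |s * (c - h) - T * E| ≤ |s * (c - h)| + |T * E| := abs_sub _ _
      _ ≤ C1 * T + T := add_le_add a1 a3
      _ = (C1 + 1) * T := by ring
  have hl1 : |l - 1| ≤ (C1 + 1 + 2 * C2) * T := by
    have a1 : l - 1 = (l - 1 - (s * (c - h) - T * E)) + (s * (c - h) - T * E) := by ring
    rw [a1]
    calc _ ≤ |l - 1 - (s * (c - h) - T * E)| + |s * (c - h) - T * E| := abs_add_le _ _
      _ ≤ C2 * (q + T ^ 2) + (C1 + 1) * T := add_le_add hl hx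
      _ ≤ C2 * (2 * T) + (C1 + 1) * T := by
        have : C2 * (q + T ^ 2) ≤ C2 * (2 * T) :=
          mul_le_mul_of_nonneg_left hQ (by linarith)
        linarith
      _ = (C1 + 1 + 2 * C2) * T := by ring
  have hP3b : |P3| ≤ 3 / 2 := by
    have a1 : P3 = (P3 - c) + c := by ring
    rw [a1]
    calc _ ≤ |P3 - c| + |c| := abs_add_le _ _
      _ ≤ C3 * T + 1 := add_le_add hp3 (by rw [abs_of_nonneg wc0]; exact wc1)
      _ ≤ 3 / 2 := by
        have := hCT C3 (by linarith)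
        linarith
  have hin : |(l - 1) * P3 + (P3 - c)| ≤ ((C1 + 1 + 2 * C2) * (3 / 2) + C3) * T := by
    calc _ ≤ |(l - 1) * P3| + |P3 - c| := abs_add_le _ _
      _ ≤ (C1 + 1 + 2 * C2) * T * (3 / 2) + C3 * T := by
        refine add_le_add ?_ hp3
        rw [abs_mul]
        exact mul_le_mul hl1 hP3b (abs_nonneg _) (by positivity)
      _ = ((C1 + 1 + 2 * C2) * (3 / 2) + C3) * T := by ring
  have hlast : |2 * s * ((l - 1) * P3 + (P3 - c))| ≤
      2 * C1 * ((C1 + 1 + 2 * C2) * (3 / 2) + C3) * T ^ 2 := by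
    rw [abs_mul, abs_of_pos (by positivity : (0 : ℝ) < 2 * s)]
    calc 2 * s * |(l - 1) * P3 + (P3 - c)| ≤
        (2 * (C1 * T)) * (((C1 + 1 + 2 * C2) * (3 / 2) + C3) * T) :=
          mul_le_mul (by linarith) hin (abs_nonneg _) (by positivity)
      _ = _ := by ring
  have hTq : T ^ 2 ≤ q + T ^ 2 := by linarith
  have hqq : q ≤ q + T ^ 2 := by nlinarith
  calc |-2 * (A - T * E) - (l - 1 - (s * (c - h) - T * E)) +
        2 * s * ((l - 1) * P3 + (P3 - c))|
      ≤ |-2 * (A - T * E) - (l - 1 - (s * (c - h) - T * E))| +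
        |2 * s * ((l - 1) * P3 + (P3 - c))| := abs_add_le _ _
    _ ≤ |-2 * (A - T * E)| + |l - 1 - (s * (c - h) - T * E)| +
        |2 * s * ((l - 1) * P3 + (P3 - c))| := by
        have := abs_sub (-2 * (A - T * E)) (l - 1 - (s * (c - h) - T * E))
        linarith
    _ ≤ 2 * (C4 * q) + C2 * (q + T ^ 2) +
        2 * C1 * ((C1 + 1 + 2 * C2) * (3 / 2) + C3) * T ^ 2 := by
        have a1 : |-2 * (A - T * E)| = 2 * |A - T * E| := by
          rw [abs_mul]
          norm_num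
        rw [a1]
        linarith
    _ ≤ 2 * (C4 * (q + T ^ 2)) + C2 * (q + T ^ 2) +
        2 * C1 * ((C1 + 1 + 2 * C2) * (3 / 2) + C3) * (q + T ^ 2) := by
        have a1 : C4 * q ≤ C4 * (q + T ^ 2) := mul_le_mul_of_nonneg_left hqq (by linarith)
        have a2 := mul_le_mul_of_nonneg_left hTq hB
        linarith
    _ ≤ (C1 + C2 + C3 + 2 * C4 + 2 * C1 * ((C1 + 1 + 2 * C2) * (3 / 2) + C3)) *
        (q + T ^ 2) := by
        have a1 : 0 ≤ C1 * (q + T ^ 2) := by positivity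
        have a2 : 0 ≤ C3 * (q + T ^ 2) := by positivity
        linarith

end Pool.Agent.PVD.L.H88
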