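import Pool.Agent.PVD.StmtsG

/-!
Squad PVD, block G, row HSM.
-/

set_option autoImplicit false

open MeasureTheory Metric Set Filter Topology

namespace PVD.H88

open PV PV3 PVD

/-- A linear isometry onto the orthogonal complement of a unit vector. -/
lemma exists_iota {m : ℕ} (u : E (m + 1)) (hu : ‖u‖ = 1) :
    ∃ ι : E m →ₗᵢ[ℝ] E (m + 1), (∀ z, inner ℝ (ι z) u = (0 : ℝ)) ∧
      ∀ y : E (m + 1), inner ℝ y u = (0 : ℝ) → ∃ z, ι z = y := by
  have hu0 : u ≠ 0 := by
    rintro rfl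
    simp at hu
  have : Fact (Module.finrank ℝ (E (m + 1)) = m + 1) := ⟨by simp⟩
  have hf : Module.finrank ℝ (ℝ ∙ u)ᗮ = m := Submodule.finrank_orthogonal_span_singleton hu0
  let b := ((stdOrthonormalBasis ℝ (ℝ ∙ u)ᗮ).reindex (finCongr hf))
  refine ⟨(ℝ ∙ u)ᗮ.subtypeₗᵢ.comp b.repr.symm.toLinearIsometry, ?_, ?_⟩
  · intro z
    exact Submodule.mem_orthogonal_singleton_iff_inner_left.1 (b.repr.symm z).2
  · intro y hy
    refine ⟨b.repr ⟨y, Submodule.mem_orthogonal_singleton_iff_inner_left.2 hy⟩, ?_⟩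
    simp

/-- The projection and the decomposition. -/
lemma proj_iota {m : ℕ} {u : E (m + 1)} (hu : ‖u‖ = 1) {ι : E m →ₗᵢ[ℝ] E (m + 1)}
    (hι : ∀ z, inner ℝ (ι z) u = (0 : ℝ)) (z : E m) (s : ℝ) :
    proj u (ι z + s • u) = ι z := by
  have h1 : inner ℝ (ι z + s • u) u = s := by
    rw [inner_add_left, hι, inner_smul_left, real_inner_self_eq_norm_sq, hu]
    simp
  simp only [proj, h1, add_sub_cancel_right]

/-- The coordinates `(z, s) ↦ ι z + s u` as a measurable embedding preserving the measure. -/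
lemma exists_phi {m : ℕ} (u : E (m + 1)) (hu : ‖u‖ = 1) (ι : E m →ₗᵢ[ℝ] E (m + 1))
    (hι : ∀ z, inner ℝ (ι z) u = (0 : ℝ)) :
    MeasurePreserving (fun p : E m × ℝ => ι p.1 + p.2 • u)
      ((volume : Measure (E m)).prod (volume : Measure ℝ)) (volume : Measure (E (m + 1))) ∧
    MeasurableEmbedding (fun p : E m × ℝ => ι p.1 + p.2 • u) := by
  let T0 : WithLp 2 (E m × ℝ) →ₗ[ℝ] E (m + 1) :=
    { toFun := fun x => ι x.fst + x.snd • u
      map_add' := by
        intro x y
        simp only [WithLp.add_fst, WithLp.add_snd, map_add, add_smul]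
        abel
      map_smul' := by
        intro c x
        simp only [WithLp.smul_fst, WithLp.smul_snd, map_smul, smul_add, smul_smul, smul_eq_mul,
          RingHom.id_apply] }
  have hnorm : ∀ x, ‖T0 x‖ = ‖x‖ := by
    intro x
    have h1 : ‖T0 x‖ * ‖T0 x‖ = ‖ι x.fst‖ * ‖ι x.fst‖ + ‖x.snd • u‖ * ‖x.snd • u‖ := by
      have h0 : inner ℝ (ι x.fst) (x.snd • u) = (0 : ℝ) := by
        rw [inner_smul_right, hι, mul_zero]
      exact norm_add_sq_eq_norm_sq_add_norm_sq_real h0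
    have h2 := WithLp.prod_norm_sq_eq_of_L2 x
    rw [ι.norm_map, norm_smul, hu, mul_one] at h1
    have h3 : ‖T0 x‖ ^ 2 = ‖x‖ ^ 2 := by
      rw [h2, sq, h1]; ring
    exact (sq_eq_sq₀ (norm_nonneg _) (norm_nonneg _)).1 h3
  let T1 : WithLp 2 (E m × ℝ) →ₗᵢ[ℝ] E (m + 1) := ⟨T0, hnorm⟩
  have hfin : Module.finrank ℝ (WithLp 2 (E m × ℝ)) = Module.finrank ℝ (E (m + 1)) := by
    rw [(WithLp.linearEquiv 2 ℝ (E m × ℝ)).finrank_eq, Module.finrank_prod]
    simp
  let T : WithLp 2 (E m × ℝ) ≃ₗᵢ[ℝ] E (m + 1) := T1.toLinearIsometryEquiv hfin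
  have hT : ∀ x, T x = ι x.fst + x.snd • u := fun x => rfl
  have h1 : MeasurePreserving T := T.measurePreserving
  have h2 : MeasurePreserving (@WithLp.toLp 2 (E m × ℝ)) := WithLp.volume_preserving_toLp (E m) ℝ
  have h3 := h1.comp h2
  refine ⟨h3, ?_⟩
  have h4 : MeasurableEmbedding T := T.toHomeomorph.measurableEmbedding
  have h5 : MeasurableEmbedding (@WithLp.toLp 2 (E m × ℝ)) :=
    (MeasurableEquiv.toLp 2 (E m × ℝ)).measurableEmbedding
  exact h4.comp h5

theorem hsm : PVD.HSMStmt := by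
  intro n hn
  obtain ⟨m, rfl⟩ : ∃ m, n = m + 1 := ⟨n - 1, by omega⟩
  have hd : (((m + 1 : ℕ) : ℝ) - 1) = (m : ℝ) := by push_cast; ring
  rw [hd]
  obtain ⟨H, hH⟩ : ∃ H : Measure (E m), H = Measure.hausdorffMeasure (m : ℝ) := ⟨_, rfl⟩
  have hHaar : H.IsAddHaarMeasure := by
    have h1 : (m : ℝ) = (Module.finrank ℝ (E m) : ℝ) := by simp
    rw [hH, h1]
    infer_instance
  have hsm := Measure.isAddLeftInvariant_eq_smul H (volume : Measure (E m))
  have hpos : Measure.addHaarScalarFactor H (volume : Measure (E m)) ≠ 0 :=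
    (Measure.addHaarScalarFactor_pos_of_isAddHaarMeasure _ _).ne'
  obtain ⟨c, hc⟩ : ∃ c : NNReal, c = Measure.addHaarScalarFactor H (volume : Measure (E m)) :=
    ⟨_, rfl⟩
  rw [← hc] at hsm hpos
  refine ⟨(c : ENNReal), by simpa using hpos, ENNReal.coe_ne_top, ?_⟩
  intro u hu K hK
  obtain ⟨ι, hι, hsurj⟩ := exists_iota u hu
  obtain ⟨hΦ, hΦe⟩ := exists_phi u hu ι hι
  have hpc : Continuous (fun x : E (m + 1) => proj u x) := by
    unfold proj
    fun_prop
  have hPc : IsCompact (proj u '' K) := hK.image hpc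
  obtain ⟨K', hK'⟩ : ∃ K' : Set (E m), K' = ι ⁻¹' (proj u '' K) := ⟨_, rfl⟩
  have hιcl : IsClosedEmbedding ι := ι.isometry.isClosedEmbedding
  have hK'c : IsCompact K' := by
    rw [hK']
    exact hιcl.isCompact_preimage hPc
  have hK'm : MeasurableSet K' := hK'c.isClosed.measurableSet
  have himg : proj u '' K = ι '' K' := by
    rw [hK', Set.image_preimage_eq_iff.2]
    rintro y ⟨x, hx, rfl⟩
    have h1 : inner ℝ (proj u x) u = (0 : ℝ) := by
      simp only [proj, inner_sub_left, inner_smul_left, real_inner_self_eq_norm_sq, hu]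
      simp
    obtain ⟨z, hz⟩ := hsurj _ h1
    exact ⟨z, hz⟩
  have hPr : Pr u K = (fun p : E m × ℝ => ι p.1 + p.2 • u) '' (K' ×ˢ Icc (0 : ℝ) 1) := by
    ext y
    constructor
    · rintro ⟨x, hx, s, hs, rfl⟩
      have h1 : proj u x ∈ ι '' K' := by rw [← himg]; exact ⟨x, hx, rfl⟩
      obtain ⟨z, hz, hz'⟩ := h1
      exact ⟨(z, s), ⟨hz, hs⟩, by simp only [hz']⟩
    · rintro ⟨⟨z, s⟩, ⟨hz, hs⟩, rfl⟩
      have h1 : ι z ∈ proj u '' K := by rw [himg]; exact ⟨z, hz, rfl⟩
      obtain ⟨x, hx, hx'⟩ := h1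
      exact ⟨x, hx, s, hs, by simp only [hx']⟩
  have hm0 : (0 : ℝ) ≤ (m : ℝ) := Nat.cast_nonneg m
  constructor
  · have h1 : Measure.hausdorffMeasure (m : ℝ) (ι '' K') = Measure.hausdorffMeasure (m : ℝ) K' :=
      ι.isometry.hausdorffMeasure_image (Or.inl hm0) K'
    have h2 : volume (Pr u K) = volume K' := by
      have h3 := hΦ.measure_preimage_emb hΦe (Pr u K)
      rw [hPr, Set.preimage_image_eq _ hΦe.injective, Measure.prod_prod, ← hPr] at h3
      rw [← h3]
      simp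
    rw [himg, h1, h2, ← hH, hsm]
    rfl
  · intro f hf
    have hmap : Measure.map ι H = (Measure.hausdorffMeasure (m : ℝ) :
        Measure (E (m + 1))).restrict (Set.range ι) := by
      rw [hH]
      exact ι.isometry.map_hausdorffMeasure (Or.inl hm0)
    have hιm : MeasurableEmbedding ι := hιcl.measurableEmbedding
    have hmeas : MeasurableSet (ι '' K') := hιm.measurableSet_image.2 hK'm
    have h1 : (Measure.hausdorffMeasure (m : ℝ) : Measure (E (m + 1))).restrict (ι '' K') =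
        (Measure.map ι H).restrict (ι '' K') := by
      rw [hmap, Measure.restrict_restrict hmeas,
        Set.inter_eq_left.2 (Set.image_subset_range _ _)]
    rw [himg, h1, hιm.setIntegral_map, Set.preimage_image_eq _ hιm.injective, hsm,
      Measure.restrict_smul, integral_smul_nnreal_measure, hPr,
      hΦ.setIntegral_image_emb hΦe]
    have h2 : ∫ p in K' ×ˢ Icc (0 : ℝ) 1, f (proj u (ι p.1 + p.2 • u))
        ∂((volume : Measure (E m)).prod (volume : Measure ℝ)) =
        ∫ p in K' ×ˢ Icc (0 : ℝ) 1, f (ι p.1) * 1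
        ∂((volume : Measure (E m)).prod (volume : Measure ℝ)) := by
      refine integral_congr_ae (Filter.Eventually.of_forall fun p => ?_)
      simp only [proj_iota hu hι, mul_one]
    rw [h2, setIntegral_prod_mul (fun z => f (ι z)) (fun _ => (1 : ℝ))]
    simp [NNReal.smul_def]

end PVD.H88
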